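import Pool.Agent.H28.TanBlock

set_option autoImplicit false

namespace Pool.Agent.Results.MP_dabcc5_co.NormalNotSS

open Pool.Agent.H28.TanBlock

/-- A normal tangential 1-block over GF(5) (a quotient of M(K_6), 6 = 5^1 + 1) which has no
modular hyperplane and is not supersolvable. -/
theorem result : ∃ v : Fin 10 → Fin 3 → ZMod 5,
    Tangential v 1 ∧ Normal v (5 ^ 1 + 1) ∧ ¬ HasModularHyperplane v ∧ ¬ Supersolvable v :=
  ⟨v, tangential, normal, no_mod, not_ss⟩

end Pool.Agent.Results.MP_dabcc5_co.NormalNotSS
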